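import Pool.Agent.H95.Shq1
import Pool.Agent.H95.ShqDefs

set_option autoImplicit false

namespace Pool.Agent.Results.MP_41c25d_an.Four
open Pool.Agent.H95.ShqDefs Pool.Agent.H95.Shq MeasureTheory Matrix
open scoped ComplexOrder

theorem result (n : ℕ) (A B : Matrix (Fin n) (Fin n) ℂ) : ∃ f g : ℝ → ℂ,
    MemLp f 4 (volume.restrict (Set.Ioo 0 1)) ∧ MemLp g 4 (volume.restrict (Set.Ioo 0 1)) ∧
    ∀ α β : ℂ, schatten 4 (α • A + β • B) =
      (∫ x in Set.Ioo (0 : ℝ) 1, ‖α * f x + β * g x‖ ^ (4 : ℝ)) ^ (1 / 4 : ℝ) := by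
  obtain ⟨l, h1, h2⟩ := sz _ (fam (Aᴴ * A) (Bᴴ * B) (Aᴴ * B) + fam (A * Aᴴ) (B * Bᴴ) (B * Aᴴ)) rfl (by
    rw [Multiset.map_add, Multiset.sum_add, famJ, famJ]
    simp only [conjTranspose_mul, conjTranspose_conjTranspose]
    have a1 : (B * Aᴴ * (A * Bᴴ)).trace = (Aᴴ * A * (Bᴴ * B)).trace := by
      rw [mul_assoc B, trace_mul_comm B]; simp only [mul_assoc]
    have a2 : (A * Bᴴ * (B * Aᴴ)).trace = (Aᴴ * A * (Bᴴ * B)).trace := by
      rw [← mul_assoc, trace_mul_comm _ Aᴴ]; simp only [mul_assoc]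
    have a3 : (Aᴴ * B * (Bᴴ * A)).trace = (A * Aᴴ * (B * Bᴴ)).trace := by
      rw [← mul_assoc, trace_mul_comm _ A]; simp only [mul_assoc]
    have a4 : (Bᴴ * A * (Aᴴ * B)).trace = (A * Aᴴ * (B * Bᴴ)).trace := by
      rw [mul_assoc Bᴴ, trace_mul_comm Bᴴ]; simp only [mul_assoc]
    rw [a1, a2, a3, a4]
    ring)
  have hl : ∀ k : ℕ, ∃ ab : ℂ × ℂ, ∀ α β, D (hv α β) (l.getD k 0) = ‖α * ab.1 + β * ab.2‖ ^ 4 :=
    fun k => light (by
      rcases lt_or_ge k l.length with h | h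
      · rw [List.getD_eq_getElem _ _ h]; exact h1 _ (List.getElem_mem h)
      · rw [List.getD_eq_default _ _ h]; simp [Pool.Agent.H95.Shq.J])
  choose ab hab using hl
  set N := l.length
  obtain ⟨c, hc, c4⟩ : ∃ c : ℝ, 0 ≤ c ∧ c ^ 4 = (N + 1) / 2 :=
    ⟨√√((N + 1) / 2), Real.sqrt_nonneg _, by
      rw [show ∀ x : ℝ, x ^ 4 = (x ^ 2) ^ 2 from fun x => by ring, Real.sq_sqrt (Real.sqrt_nonneg _),
        Real.sq_sqrt (by positivity)]⟩
  have mem : ∀ a : ℕ → ℂ, MemLp (fun x : ℝ => a ⌊(N + 1 : ℝ) * x⌋₊) 4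
      (volume.restrict (Set.Ioo 0 1)) := fun a => by
    refine MemLp.of_bound ((measurable_from_nat.comp
      (Nat.measurable_floor.comp (by fun_prop))).aestronglyMeasurable)
      (∑ k ∈ Finset.range (N + 1), ‖a k‖) ?_
    filter_upwards [ae_restrict_mem measurableSet_Ioo] with x hx
    refine Finset.single_le_sum (f := fun k => ‖a k‖) (fun _ _ => norm_nonneg _)
      (Finset.mem_range.2 ((Nat.floor_lt (mul_nonneg (by positivity) hx.1.le)).2 ?_))
    push_cast
    exact mul_lt_of_lt_one_right (by positivity) hx.2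
  refine ⟨_, _, mem fun k => c * (ab k).1, mem fun k => c * (ab k).2, fun α β => ?_⟩
  rw [schatten, stepf N fun k => ‖α * (c * (ab k).1) + β * (c * (ab k).2)‖ ^ (4 : ℝ)]
  congr 1
  set X := α • A + β • B with hX
  have e1 : ∀ k ∈ Finset.range (N + 1), ‖α * (c * (ab k).1) + β * (c * (ab k).2)‖ ^ (4 : ℝ) =
      (N + 1) / 2 * D (hv α β) (l.getD k 0) := fun k _ => by
    rw [hab, ← c4, ← mul_pow, show α * (c * (ab k).1) + β * (c * (ab k).2) =
      c * (α * (ab k).1 + β * (ab k).2) by ring, norm_mul, Complex.norm_real, Real.norm_of_nonneg hc]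
    exact_mod_cast rfl
  have e2 : ∑ k ∈ Finset.range (N + 1), D (hv α β) (l.getD k 0) = (l.map (D (hv α β))).sum := by
    rw [Finset.sum_range_succ, List.getD_eq_default _ _ le_rfl, ← Fin.sum_univ_eq_sum_range
      (fun k => D (hv α β) (l.getD k 0)), ← List.sum_ofFn]
    simp only [D, Pi.zero_apply, mul_zero, add_zero, ne_eq, OfNat.ofNat_ne_zero, not_false_eq_true,
      zero_pow]
    congr 1
    refine List.ext_getElem (by simp [N]) fun k k1 k2 => ?_
    simp at k2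
    simp [D, List.getElem?_eq_getElem k2]
  have e3 : ∀ i, √((isHermitian_conjTranspose_mul_self X).eigenvalues i) ^ (4 : ℝ) =
      (isHermitian_conjTranspose_mul_self X).eigenvalues i ^ 2 := fun i => by
    rw [show (4 : ℝ) = ((2 * 2 : ℕ) : ℝ) by norm_num, Real.rpow_natCast, pow_mul,
      Real.sq_sqrt ((posSemidef_conjTranspose_mul_self X).eigenvalues_nonneg i)]
  rw [Finset.sum_congr rfl e1, ← Finset.mul_sum, e2, h2, Multiset.map_add, Multiset.sum_add,
    famD _ _ _ (Xᴴ * X) α β, famD _ _ _ (X * Xᴴ) α β, Finset.sum_congr rfl fun i _ => e3 i, sq_eig]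
  · simp only [conjTranspose_mul, conjTranspose_conjTranspose]
    rw [show (X * Xᴴ * (X * Xᴴ)).trace = (Xᴴ * X * (Xᴴ * X)).trace by
      rw [mul_assoc X, trace_mul_comm X]; simp only [mul_assoc]]
    field_simp
    ring
  · simp only [hX, conjTranspose_add, conjTranspose_smul, add_mul, mul_add, smul_mul_assoc,
      mul_smul_comm, smul_smul, conjTranspose_mul, conjTranspose_conjTranspose, RCLike.star_def]
    module
  · simp only [hX, conjTranspose_add, conjTranspose_smul, add_mul, mul_add, smul_mul_assoc,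
      mul_smul_comm, smul_smul, conjTranspose_mul, conjTranspose_conjTranspose, RCLike.star_def]
    module

end Pool.Agent.Results.MP_41c25d_an.Four
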