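import Pool.Agent.H95.Shp6

set_option autoImplicit false

namespace Pool.Agent.Results.MP_41c25d_an.Low
open Pool.Agent.H95.ShpDefs MeasureTheory Matrix

theorem result (p : ℝ) (h1 : 2 < p) (h2 : p < 1 + √5) :
    ∃ A B : Matrix (Fin 2) (Fin 2) ℂ, ¬∃ f g : ℝ → ℂ,
      MemLp f (ENNReal.ofReal p) (volume.restrict (Set.Ioo 0 1)) ∧
      MemLp g (ENNReal.ofReal p) (volume.restrict (Set.Ioo 0 1)) ∧
      ∀ α β : ℂ, schatten p (α • A + β • B) =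
        (∫ x in Set.Ioo (0 : ℝ) 1, ‖α * f x + β * g x‖ ^ p) ^ (1 / p) :=
  Pool.Agent.H95.Shp6.fails p (Or.inl ⟨h1, h2⟩)

end Pool.Agent.Results.MP_41c25d_an.Low
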